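import Pool.Agent.W902.C6.Stm

/-!
Project C6 (helper902), NORM: normal form of two non-parallel lines.
-/

set_option autoImplicit false

open Pool.Agent.H800R3

namespace Pool.Agent.W179.C6.Norm

open Pool.Agent.W902.C6

/-- the affine map -/
noncomputable def phi (a b c d p x : Pt) : Pt := (1 - D c d x / D c d p, 1 - D a b x / D a b p)

theorem D_phi {a b c d p : Pt} (x y z : Pt) :
    D (phi a b c d p x) (phi a b c d p y) (phi a b c d p z) =
      (-(cross a b c d) / (D a b p * D c d p)) * D x y z := by
  have e : ∀ u v w : Pt, D (phi a b c d p u) (phi a b c d p v) (phi a b c d p w) =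
      ((D c d u - D c d v) / D c d p) * ((D a b u - D a b w) / D a b p) -
      ((D a b u - D a b v) / D a b p) * ((D c d u - D c d w) / D c d p) := by
    intro u v w
    conv_lhs => unfold D phi
    simp only
    ring
  rw [e, div_mul_div_comm, div_mul_div_comm, mul_comm (D c d p), ← sub_div, div_mul_eq_mul_div]
  congr 1
  unfold cross D
  ring

theorem phi_inj {a b c d p : Pt} (h1 : D a b p ≠ 0) (h2 : D c d p ≠ 0) (h3 : cross a b c d ≠ 0)
    {x y : Pt} (h : phi a b c d p x = phi a b c d p y) : x = y := by
  unfold phi at h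
  rw [Prod.mk.injEq] at h
  obtain ⟨e1, e2⟩ := h
  have e1' : D c d x = D c d y := by
    have : D c d x / D c d p = D c d y / D c d p := by linarith
    exact (div_left_inj' h2).1 this
  have e2' : D a b x = D a b y := by
    have : D a b x / D a b p = D a b y / D a b p := by linarith
    exact (div_left_inj' h1).1 this
  unfold D at e1' e2'
  have f1 : cross a b c d * (x.1 - y.1) = 0 := by
    unfold cross
    linear_combination (-(b.1 - a.1)) * e1' + (d.1 - c.1) * e2'
  have f2 : cross a b c d * (x.2 - y.2) = 0 := by
    unfold cross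
    linear_combination (-(b.2 - a.2)) * e1' + (d.2 - c.2) * e2'
  have g1 := (mul_eq_zero.1 f1).resolve_left h3
  have g2 := (mul_eq_zero.1 f2).resolve_left h3
  exact Prod.ext (by linarith) (by linarith)

theorem pos_case (S : Finset Pt) (a b c d p : Pt) (h1 : D a b p ≠ 0) (h2 : D c d p ≠ 0)
    (h3 : cross a b c d ≠ 0) (hpos : 0 < -(cross a b c d) / (D a b p * D c d p))
    (hS : ∀ x ∈ S, x = p ∨ D a b x = 0 ∨ D c d x = 0) :
    ∃ (e : Bool) (A T : Finset ℝ), SameConf S (std e A T) := by
  classical
  obtain ⟨S', hS'⟩ : ∃ S' : Finset Pt, S' = S.image (phi a b c d p) := ⟨_, rfl⟩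
  have hpp : phi a b c d p p = ((0 : ℝ), (0 : ℝ)) := by
    unfold phi
    rw [div_self h1, div_self h2, sub_self]
  have hstd : S' = std (decide (p ∈ S)) ((S'.filter (fun q => q.2 = 1)).image Prod.fst)
      ((S'.filter (fun q => q.1 = 1)).image Prod.snd) := by
    ext q
    unfold std
    rw [Finset.mem_union, Finset.mem_union, Finset.mem_image, Finset.mem_image]
    constructor
    · intro hq
      have hq' := hq
      rw [hS', Finset.mem_image] at hq'
      obtain ⟨x, hx, hxq⟩ := hq'
      rcases hS x hx with h | h | h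
      · left
        have hp : p ∈ S := h ▸ hx
        rw [if_pos (by simpa using hp), Finset.mem_singleton, ← hxq, h, hpp]
      · right; left
        have e2 : q.2 = 1 := by
          rw [← hxq]
          unfold phi
          simp only
          rw [h, zero_div, sub_zero]
        exact ⟨q.1, Finset.mem_image.2 ⟨q, Finset.mem_filter.2 ⟨hq, e2⟩, rfl⟩,
          Prod.ext rfl e2.symm⟩
      · right; right
        have e2 : q.1 = 1 := by
          rw [← hxq]
          unfold phi
          simp only
          rw [h, zero_div, sub_zero]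
        exact ⟨q.2, Finset.mem_image.2 ⟨q, Finset.mem_filter.2 ⟨hq, e2⟩, rfl⟩,
          Prod.ext e2.symm rfl⟩
    · rintro (hq | ⟨s, hs, hq⟩ | ⟨s, hs, hq⟩)
      · split_ifs at hq with hp
        · rw [Finset.mem_singleton] at hq
          rw [hq, hS', ← hpp]
          exact Finset.mem_image_of_mem _ (by simpa using hp)
        · exact absurd hq (Finset.notMem_empty _)
      · obtain ⟨r, hr, hrs⟩ := Finset.mem_image.1 hs
        rw [Finset.mem_filter] at hr
        have : r = q := by rw [← hq, ← hrs]; exact Prod.ext rfl hr.2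
        exact this ▸ hr.1
      · obtain ⟨r, hr, hrs⟩ := Finset.mem_image.1 hs
        rw [Finset.mem_filter] at hr
        have : r = q := by rw [← hq, ← hrs]; exact Prod.ext hr.2 rfl
        exact this ▸ hr.1
  refine ⟨decide (p ∈ S), (S'.filter (fun q => q.2 = 1)).image Prod.fst,
    (S'.filter (fun q => q.1 = 1)).image Prod.snd, ?_⟩
  rw [← hstd]
  have hbij : Function.Bijective (fun x : S => (⟨phi a b c d p x, by
      rw [hS']; exact Finset.mem_image_of_mem _ x.2⟩ : S')) := by
    constructor
    · intro x y hxy
      rw [Subtype.mk.injEq] at hxy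
      exact Subtype.ext (phi_inj h1 h2 h3 hxy)
    · rintro ⟨q, hq⟩
      have hq' := hq
      rw [hS', Finset.mem_image] at hq'
      obtain ⟨x, hx, hxq⟩ := hq'
      exact ⟨⟨x, hx⟩, Subtype.ext hxq⟩
  refine ⟨Equiv.ofBijective _ hbij, fun x y z => ?_⟩
  unfold orient
  simp only [Equiv.ofBijective_apply]
  rw [D_phi, sign_mul, sign_pos hpos, one_mul]

theorem main : S_norm := by
  intro S a b c d p h1 h2 h3 hS
  have hne : -(cross a b c d) / (D a b p * D c d p) ≠ 0 :=
    div_ne_zero (neg_ne_zero.2 h3) (mul_ne_zero h1 h2)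
  rcases lt_or_gt_of_ne hne with h | h
  · have e : cross c d a b = -(cross a b c d) := by unfold cross; ring
    refine pos_case S c d a b p h2 h1 (by rw [e]; exact neg_ne_zero.2 h3) ?_ ?_
    · rw [e, mul_comm (D c d p)]
      have : -(-(cross a b c d)) / (D a b p * D c d p) =
          -(-(cross a b c d) / (D a b p * D c d p)) := by ring
      rw [this]
      linarith
    · intro x hx
      rcases hS x hx with h4 | h4 | h4
      · exact Or.inl h4
      · exact Or.inr (Or.inr h4)
      · exact Or.inr (Or.inl h4)
  · exact pos_case S a b c d p h1 h2 h3 h hS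

end Pool.Agent.W179.C6.Norm
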